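import Pool.Agent.H65.CF.T7

/-!
# The variance of the smoothed sum
-/

set_option autoImplicit false

namespace Pool.Agent.H70.CFH

open Pool.Agent.H31.CN Pool.Agent.H65.AD Pool.Agent.H65.CF
open Finset

/-! ### The tail -/

theorem geom_le {T : ℝ} (hT : 1 ≤ T) : (1 - Real.exp (-(1 / T)))⁻¹ ≤ T + 1 := by
  have hT0 : 0 < T := by linarith
  have h1 : 1 + 1 / T ≤ Real.exp (1 / T) := by
    have := Real.add_one_le_exp (1 / T)
    linarith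
  have h2 : Real.exp (-(1 / T)) ≤ (1 + 1 / T)⁻¹ := by
    rw [Real.exp_neg]
    exact inv_anti₀ (by positivity) h1
  have h3 : (1 + 1 / T)⁻¹ = 1 - (T + 1)⁻¹ := by
    field_simp
    ring
  have h4 : (T + 1)⁻¹ ≤ 1 - Real.exp (-(1 / T)) := by
    rw [h3] at h2
    linarith
  have h5 := inv_anti₀ (by positivity) h4
  rwa [inv_inv] at h5

theorem sum_range_eq (U : ℕ) (f : ℕ → ℝ) :
    ∑ m ∈ range U, f (m + 1) = ∑ m ∈ Icc 1 U, f m := by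
  induction U with
  | zero => simp
  | succ U ih => rw [sum_range_succ, ih, Finset.sum_Icc_succ_top (by omega)]

theorem tail_le (c : ℕ → ℝ) (hc : ∀ m, |c m| ≤ 1) (G : ℝ → ℝ) (B T : ℝ) (hB : 0 ≤ B)
    (hG : ∀ u : ℝ, 0 < u → |G u| ≤ B * Real.exp (-u)) (hT : 1 ≤ T) (U : ℕ) :
    |∑' m : ℕ, c (m + 1) / ((m : ℝ) + 1) * G (((m : ℝ) + 1) / T) -
      ∑ m ∈ Icc 1 U, c m / m * G ((m : ℝ) / T)| ≤ B * (T + 1) / (U + 1) := by
  have hT0 : 0 < T := by linarith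
  set F : ℕ → ℝ := fun m => c (m + 1) / ((m : ℝ) + 1) * G (((m : ℝ) + 1) / T) with hF
  set q : ℝ := Real.exp (-(1 / T)) with hq
  have hq0 : 0 ≤ q := (Real.exp_pos _).le
  have hq1 : q < 1 := by
    rw [hq, Real.exp_lt_one_iff]
    have : 0 < 1 / T := by positivity
    linarith
  have hFb : ∀ j m : ℕ, |F (m + j)| ≤ B / (j + 1) * q ^ m := by
    intro j m
    have hm : (0 : ℝ) < ((m + j : ℕ) : ℝ) + 1 := by positivity
    have h1 := hG ((((m + j : ℕ) : ℝ) + 1) / T) (by positivity)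
    have h2 : Real.exp (-((((m + j : ℕ) : ℝ) + 1) / T)) ≤ q ^ m := by
      rw [hq, ← Real.exp_nat_mul]
      apply Real.exp_le_exp.2
      rw [mul_neg, neg_le_neg_iff, mul_one_div]
      apply div_le_div_of_nonneg_right _ hT0.le
      push_cast
      have : (0 : ℝ) ≤ j := Nat.cast_nonneg j
      linarith
    have h3 : |c (m + j + 1) / (((m + j : ℕ) : ℝ) + 1)| ≤ 1 / ((j : ℝ) + 1) := by
      rw [abs_div, abs_of_pos hm]
      apply div_le_div₀ zero_le_one (hc _) (by positivity)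
      push_cast
      have : (0 : ℝ) ≤ m := Nat.cast_nonneg m
      linarith
    calc |F (m + j)| = |c (m + j + 1) / (((m + j : ℕ) : ℝ) + 1)| *
          |G ((((m + j : ℕ) : ℝ) + 1) / T)| := by rw [hF]; simp only; rw [abs_mul]
      _ ≤ 1 / ((j : ℝ) + 1) * (B * q ^ m) := by
          refine mul_le_mul h3 (h1.trans (mul_le_mul_of_nonneg_left h2 hB)) (abs_nonneg _)
            (by positivity)
      _ = B / (j + 1) * q ^ m := by ring
  have hgeo : Summable fun m : ℕ => q ^ m := summable_geometric_of_lt_one hq0 hq1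
  have hsum : Summable F := by
    refine Summable.of_norm_bounded (g := fun m => B / ((0 : ℕ) + 1) * q ^ m) (hgeo.mul_left _) ?_
    intro m
    exact hFb 0 m
  have h4 : ∑' m, F m - ∑ m ∈ Icc 1 U, c m / m * G ((m : ℝ) / T) = ∑' m, F (m + U) := by
    have h5 := hsum.sum_add_tsum_nat_add U
    have h6 : ∑ m ∈ range U, F m = ∑ m ∈ Icc 1 U, c m / m * G ((m : ℝ) / T) := by
      rw [← sum_range_eq U fun m => c m / m * G ((m : ℝ) / T)]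
      refine sum_congr rfl fun m _ => ?_
      rw [hF]
      push_cast
      rfl
    rw [← h5, h6]
    ring
  rw [h4]
  have h7 : |∑' m, F (m + U)| ≤ B / (U + 1) * (1 - q)⁻¹ := by
    have h8 := tsum_of_norm_bounded (f := fun m => F (m + U)) (g := fun m => B / (U + 1) * q ^ m)
      ((hasSum_geometric_of_lt_one hq0 hq1).mul_left (B / ((U : ℝ) + 1))) (fun m => hFb U m)
    exact h8
  calc |∑' m, F (m + U)| ≤ B / (U + 1) * (1 - q)⁻¹ := h7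
    _ ≤ B / (U + 1) * (T + 1) := mul_le_mul_of_nonneg_left (geom_le hT) (by positivity)
    _ = B * (T + 1) / (U + 1) := by ring

/-! ### Rough numbers -/

theorem rou_gt {R Z s : ℕ} (hs : s ∈ rou R Z) (h1 : s ≠ 1) : R < s := by
  obtain ⟨h2, h3⟩ := mem_filter.1 hs
  obtain ⟨h4, h5⟩ := mem_Icc.1 h2
  have hp := Nat.minFac_prime h1
  have hd := Nat.minFac_dvd s
  have h6 := h3 s.minFac (Nat.mem_primeFactors.2 ⟨hp, hd, by omega⟩)
  exact h6.trans_le (Nat.le_of_dvd (by omega) hd)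

theorem one_mem_rou {R Z : ℕ} (hZ : 1 ≤ Z) : 1 ∈ rou R Z := by
  refine mem_filter.2 ⟨mem_Icc.2 ⟨le_rfl, hZ⟩, ?_⟩
  intro p hp
  simp at hp

theorem rou_pos {R Z s : ℕ} (hs : s ∈ rou R Z) : 1 ≤ s ∧ s ≤ Z :=
  mem_Icc.1 (mem_filter.1 hs).1

theorem smo_pos {R Z s : ℕ} (hs : s ∈ smo R Z) : 1 ≤ s ∧ s ≤ Z :=
  mem_Icc.1 (mem_filter.1 hs).1

theorem sum_sq_erase {R Z : ℕ} (hR : 1 ≤ R) :
    ∑ s ∈ (rou R Z).erase 1, 1 / (s : ℝ) ^ 2 ≤ 1 / (R : ℝ) := by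
  by_cases hRZ : R ≤ Z
  · have h1 : (rou R Z).erase 1 ⊆ Ioc R Z := by
      intro s hs
      obtain ⟨h2, h3⟩ := mem_erase.1 hs
      exact mem_Ioc.2 ⟨rou_gt h3 h2, (rou_pos h3).2⟩
    have h2 := sum_Ioc_inv_sq_le_sub (α := ℝ) (k := R) (n := Z) (by omega) hRZ
    calc ∑ s ∈ (rou R Z).erase 1, 1 / (s : ℝ) ^ 2 ≤ ∑ s ∈ Ioc R Z, 1 / (s : ℝ) ^ 2 :=
          sum_le_sum_of_subset_of_nonneg h1 fun s _ _ => by positivity
      _ = ∑ s ∈ Ioc R Z, ((s : ℝ) ^ 2)⁻¹ := by simp only [one_div]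
      _ ≤ (R : ℝ)⁻¹ - (Z : ℝ)⁻¹ := h2
      _ ≤ 1 / R := by
          rw [one_div]
          have : (0 : ℝ) ≤ (Z : ℝ)⁻¹ := by positivity
          linarith
  · have h1 : (rou R Z).erase 1 = ∅ := by
      apply eq_empty_of_forall_notMem
      intro s hs
      obtain ⟨h2, h3⟩ := mem_erase.1 hs
      have := rou_gt h3 h2
      have := (rou_pos h3).2
      omega
    rw [h1, sum_empty]
    positivity

theorem sum_sq_rou {R Z : ℕ} (hR : 1 ≤ R) : ∑ s ∈ rou R Z, 1 / (s : ℝ) ^ 2 ≤ 2 := by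
  have h1 := sum_sq_erase (R := R) (Z := Z) hR
  have h2 : ∑ s ∈ rou R Z, 1 / (s : ℝ) ^ 2 ≤ 1 + ∑ s ∈ (rou R Z).erase 1, 1 / (s : ℝ) ^ 2 := by
    by_cases h3 : 1 ∈ rou R Z
    · rw [← Finset.add_sum_erase _ _ h3]
      simp
    · rw [Finset.erase_eq_of_notMem h3]
      linarith
  have h3 : 1 / (R : ℝ) ≤ 1 := by
    rw [div_le_one (by exact_mod_cast hR)]
    exact_mod_cast hR
  linarith

/-! ### Cauchy's inequality -/

theorem cauchy_w {ι : Type} (P : Finset ι) (w v x : ι → ℝ) (hv : ∀ p ∈ P, 0 ≤ v p)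
    (hw : ∀ p ∈ P, |w p| ≤ v p) :
    (∑ p ∈ P, w p * x p) ^ 2 ≤ (∑ p ∈ P, v p) * ∑ p ∈ P, v p * x p ^ 2 := by
  have h1 : |∑ p ∈ P, w p * x p| ≤ ∑ p ∈ P, Real.sqrt (v p) * (Real.sqrt (v p) * |x p|) := by
    refine (abs_sum_le_sum_abs _ _).trans (sum_le_sum fun p hp => ?_)
    rw [abs_mul, ← mul_assoc, Real.mul_self_sqrt (hv p hp)]
    exact mul_le_mul_of_nonneg_right (hw p hp) (abs_nonneg _)
  have h2 : (∑ p ∈ P, w p * x p) ^ 2 ≤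
      (∑ p ∈ P, Real.sqrt (v p) * (Real.sqrt (v p) * |x p|)) ^ 2 := by
    rw [← sq_abs (∑ p ∈ P, w p * x p)]
    exact pow_le_pow_left₀ (abs_nonneg _) h1 2
  refine h2.trans ((Finset.sum_mul_sq_le_sq_mul_sq P _ _).trans (le_of_eq ?_))
  congr 1
  · exact sum_congr rfl fun p hp => Real.sq_sqrt (hv p hp)
  · refine sum_congr rfl fun p hp => ?_
    rw [mul_pow, Real.sq_sqrt (hv p hp), sq_abs]

/-! ### The parts of the sum -/

/-- the terms -/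
noncomputable def fT (G : ℝ → ℝ) (T : ℝ) (D m : ℕ) : ℝ := chm m D / m * G ((m : ℝ) / T)

/-- the terms of the decomposition -/
noncomputable def gT (G : ℝ → ℝ) (T : ℝ) (U D a s r : ℕ) : ℝ :=
  if a * s ^ 2 * r ≤ U then fT G T D (a * s ^ 2 * r) else 0

theorem split (hDEC : T_DEC) (G : ℝ → ℝ) (T : ℝ) (R U D : ℕ) (hU : 1 ≤ U) :
    ∑ m ∈ Icc 1 U, fT G T D m - ∑ a ∈ smo R U, fT G T D a =
      ∑ a ∈ smo R U, ∑ s ∈ (rou R U).erase 1, gT G T U D a s 1 +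
      ∑ a ∈ smo R U, ∑ s ∈ rou R U, ∑ r ∈ ((rou R U).filter Squarefree).erase 1,
        gT G T U D a s r := by
  have h1 : (1 : ℕ) ∈ (rou R U).filter Squarefree :=
    mem_filter.2 ⟨one_mem_rou hU, squarefree_one⟩
  have h2 := hDEC R U (fT G T D)
  have h3 : ∑ m ∈ Icc 1 U, fT G T D m = ∑ a ∈ smo R U, ∑ s ∈ rou R U,
      ∑ r ∈ (rou R U).filter Squarefree, gT G T U D a s r := h2
  rw [h3, ← sum_sub_distrib, ← sum_add_distrib]
  refine sum_congr rfl fun a ha => ?_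
  have h4 : ∑ s ∈ rou R U, ∑ r ∈ (rou R U).filter Squarefree, gT G T U D a s r =
      ∑ s ∈ rou R U, gT G T U D a s 1 +
      ∑ s ∈ rou R U, ∑ r ∈ ((rou R U).filter Squarefree).erase 1, gT G T U D a s r := by
    rw [← sum_add_distrib]
    refine sum_congr rfl fun s _ => ?_
    rw [Finset.add_sum_erase _ _ h1]
  have h5 : gT G T U D a 1 1 = fT G T D a := by
    unfold gT
    rw [one_pow, mul_one, mul_one, if_pos (smo_pos ha).2]
  rw [h4, ← Finset.add_sum_erase _ (fun s => gT G T U D a s 1) (one_mem_rou hU), h5]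
  ring

theorem fT_le (hCHM : T_CHM) {G : ℝ → ℝ} {B T : ℝ} (hB : 0 ≤ B)
    (hG : ∀ u : ℝ, 0 < u → |G u| ≤ B * Real.exp (-u)) (hT : 1 ≤ T) (D : ℕ) {m : ℕ} (hm : 1 ≤ m) :
    |fT G T D m| ≤ B / m := by
  have hm0 : (0 : ℝ) < m := by exact_mod_cast hm
  have hT0 : 0 < T := by linarith
  have h1 := hG ((m : ℝ) / T) (by positivity)
  have h2 : B * Real.exp (-((m : ℝ) / T)) ≤ B := by
    have : Real.exp (-((m : ℝ) / T)) ≤ 1 := by
      rw [Real.exp_le_one_iff]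
      have : 0 ≤ (m : ℝ) / T := by positivity
      linarith
    nlinarith
  unfold fT
  rw [abs_mul, abs_div, abs_of_pos hm0]
  calc |chm m D| / m * |G ((m : ℝ) / T)| ≤ 1 / m * B := by
        refine mul_le_mul ?_ (h1.trans h2) (abs_nonneg _) (by positivity)
        exact div_le_div_of_nonneg_right (hCHM.2.1 m D) hm0.le
    _ = B / m := by ring

/-- the squares -/
theorem e1_le (hCHM : T_CHM) {G : ℝ → ℝ} {B T S : ℝ} (hB : 0 ≤ B)
    (hG : ∀ u : ℝ, 0 < u → |G u| ≤ B * Real.exp (-u)) (hT : 1 ≤ T) {R U : ℕ} (hR : 1 ≤ R) (D : ℕ)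
    (hS : ∑ a ∈ smo R U, (1 : ℝ) / a ≤ S) :
    |∑ a ∈ smo R U, ∑ s ∈ (rou R U).erase 1, gT G T U D a s 1| ≤ B * S / R := by
  have h1 : ∀ a ∈ smo R U, ∀ s ∈ (rou R U).erase 1,
      |gT G T U D a s 1| ≤ B * (1 / a) * (1 / (s : ℝ) ^ 2) := by
    intro a ha s hs
    have ha1 := (smo_pos ha).1
    have hs1 := (rou_pos (mem_erase.1 hs).2).1
    unfold gT
    split_ifs with h
    · have h2 := fT_le hCHM hB hG hT D (m := a * s ^ 2 * 1) (by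
        have : 0 < a * s ^ 2 * 1 := by positivity
        omega)
      refine h2.trans (le_of_eq ?_)
      push_cast
      have ha0 : (a : ℝ) ≠ 0 := by
        have : (0 : ℝ) < a := by exact_mod_cast ha1
        exact this.ne'
      have hs0 : (s : ℝ) ≠ 0 := by
        have : (0 : ℝ) < s := by exact_mod_cast hs1
        exact this.ne'
      field_simp
    · rw [abs_zero]
      positivity
  calc |∑ a ∈ smo R U, ∑ s ∈ (rou R U).erase 1, gT G T U D a s 1|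
      ≤ ∑ a ∈ smo R U, ∑ s ∈ (rou R U).erase 1, |gT G T U D a s 1| :=
        (abs_sum_le_sum_abs _ _).trans (sum_le_sum fun a _ => abs_sum_le_sum_abs _ _)
    _ ≤ ∑ a ∈ smo R U, ∑ s ∈ (rou R U).erase 1, B * (1 / a) * (1 / (s : ℝ) ^ 2) :=
        sum_le_sum fun a ha => sum_le_sum fun s hs => h1 a ha s hs
    _ = B * (∑ a ∈ smo R U, (1 : ℝ) / a) * ∑ s ∈ (rou R U).erase 1, 1 / (s : ℝ) ^ 2 := by
        rw [mul_assoc, sum_mul_sum, mul_sum]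
        refine sum_congr rfl fun a _ => ?_
        rw [mul_sum]
        exact sum_congr rfl fun s _ => by ring
    _ ≤ B * S * (1 / R) := by
        refine mul_le_mul (mul_le_mul_of_nonneg_left hS hB) (sum_sq_erase hR)
          (sum_nonneg fun s _ => by positivity) ?_
        exact mul_nonneg hB ((sum_nonneg fun a _ => by positivity).trans hS)
    _ = B * S / R := by ring

/-- the coefficients -/
noncomputable def bT (G : ℝ → ℝ) (B T : ℝ) (R U a s r : ℕ) : ℝ :=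
  B⁻¹ * if r ∈ rou R U ∧ a * s ^ 2 * r ≤ U then G (((a * s ^ 2 * r : ℕ) : ℝ) / T) / r else 0

theorem bT_le {G : ℝ → ℝ} {B T : ℝ} (hB : 0 ≤ B)
    (hG : ∀ u : ℝ, 0 < u → |G u| ≤ B * Real.exp (-u)) (hT : 1 ≤ T) (R U : ℕ) {a s : ℕ}
    (ha : 1 ≤ a) (hs : 1 ≤ s) (r : ℕ) : |bT G B T R U a s r| ≤ 1 / (r : ℝ) := by
  unfold bT
  split_ifs with h
  · have hr1 := (rou_pos h.1).1
    have hr0 : (0 : ℝ) < r := by exact_mod_cast hr1
    have hT0 : 0 < T := by linarith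
    have hn : 0 < a * s ^ 2 * r := by positivity
    have hn0 : (0 : ℝ) < ((a * s ^ 2 * r : ℕ) : ℝ) := by exact_mod_cast hn
    have h1 := hG (((a * s ^ 2 * r : ℕ) : ℝ) / T) (by positivity)
    have h2 : Real.exp (-(((a * s ^ 2 * r : ℕ) : ℝ) / T)) ≤ 1 := by
      rw [Real.exp_le_one_iff]
      have : 0 ≤ ((a * s ^ 2 * r : ℕ) : ℝ) / T := by positivity
      linarith
    rw [abs_mul, abs_inv, abs_of_nonneg hB, abs_div, abs_of_pos hr0]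
    have h3 : |G (((a * s ^ 2 * r : ℕ) : ℝ) / T)| ≤ B := by nlinarith
    rw [← mul_div_assoc]
    apply div_le_div_of_nonneg_right _ hr0.le
    rcases hB.eq_or_lt with h4 | h4
    · rw [← h4]
      simp
    · rw [inv_mul_le_iff₀ h4]
      linarith
  · rw [mul_zero, abs_zero]
    positivity

theorem inner_eq (hCHM : T_CHM) {G : ℝ → ℝ} {B T : ℝ} (hB : 0 ≤ B)
    (hG : ∀ u : ℝ, 0 < u → |G u| ≤ B * Real.exp (-u)) (hT : 1 ≤ T) {R U : ℕ} (hR : 2 ≤ R) (D : ℕ)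
    {a s : ℕ} (ha : 1 ≤ a) (hs : 1 ≤ s) :
    ∑ r ∈ ((rou R U).filter Squarefree).erase 1, gT G T U D a s r =
      (chm a D * chm (s ^ 2) D / (a * (s : ℝ) ^ 2) * B) *
        ∑ r ∈ (Ioc R U).filter (fun r => Odd r ∧ Squarefree r), bT G B T R U a s r * xD r D := by
  have hsub : ((rou R U).filter Squarefree).erase 1 ⊆
      (Ioc R U).filter (fun r => Odd r ∧ Squarefree r) := by
    intro r hr
    obtain ⟨h1, h2⟩ := mem_erase.1 hr
    obtain ⟨h3, h4⟩ := mem_filter.1 h2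
    have h5 := rou_gt h3 h1
    refine mem_filter.2 ⟨mem_Ioc.2 ⟨h5, (rou_pos h3).2⟩, ?_, h4⟩
    rw [← Nat.not_even_iff_odd]
    intro h6
    have h7 := (mem_filter.1 h3).2 2 (Nat.mem_primeFactors.2 ⟨Nat.prime_two, h6.two_dvd, by omega⟩)
    omega
  have hT0 : 0 < T := by linarith
  rw [mul_sum]
  rw [← sum_subset hsub]
  · refine sum_congr rfl fun r hr => ?_
    obtain ⟨h1, h2⟩ := mem_erase.1 hr
    obtain ⟨h3, h4⟩ := mem_filter.1 h2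
    have h5 := (mem_filter.1 (hsub hr)).2
    have hr1 := (rou_pos h3).1
    unfold gT bT
    by_cases h6 : a * s ^ 2 * r ≤ U
    · rw [if_pos h6, if_pos ⟨h3, h6⟩]
      unfold fT
      rw [hCHM.2.2.1 (a * s ^ 2) r D (by positivity) (by omega),
        hCHM.2.2.1 a (s ^ 2) D (by omega) (by positivity), hCHM.2.2.2.1 r D h5.1 h5.2]
      have ha0 : (a : ℝ) ≠ 0 := by
        have : (0 : ℝ) < a := by exact_mod_cast ha
        exact this.ne'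
      have hs0 : (s : ℝ) ≠ 0 := by
        have : (0 : ℝ) < s := by exact_mod_cast hs
        exact this.ne'
      have hr0 : (r : ℝ) ≠ 0 := by
        have : (0 : ℝ) < r := by exact_mod_cast hr1
        exact this.ne'
      rcases hB.eq_or_lt with h7 | h7
      · have hn : 0 < a * s ^ 2 * r := by positivity
        have hn0 : (0 : ℝ) < ((a * s ^ 2 * r : ℕ) : ℝ) := by exact_mod_cast hn
        have h8 := hG (((a * s ^ 2 * r : ℕ) : ℝ) / T) (by positivity)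
        rw [← h7, zero_mul] at h8
        have h9 : G (((a * s ^ 2 * r : ℕ) : ℝ) / T) = 0 :=
          abs_eq_zero.1 (le_antisymm h8 (abs_nonneg _))
        rw [h9, ← h7]
        simp
      · have hB0 : B ≠ 0 := h7.ne'
        have hcast : ((a * s ^ 2 * r : ℕ) : ℝ) = a * (s : ℝ) ^ 2 * r := by push_cast; ring
        generalize G (((a * s ^ 2 * r : ℕ) : ℝ) / T) = g
        rw [hcast]
        field_simp
    · rw [if_neg h6, if_neg fun h7 => h6 h7.2]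
      simp
  · intro r hr hr'
    have h1 : r ∉ rou R U := by
      intro h2
      apply hr'
      refine mem_erase.2 ⟨?_, mem_filter.2 ⟨h2, (mem_filter.1 hr).2.2⟩⟩
      have := (mem_Ioc.1 (mem_filter.1 hr).1).1
      omega
    unfold bT
    rw [if_neg fun h2 => h1 h2.1]
    simp

theorem e2_le (hCHM : T_CHM) {C₁ : ℝ}
    (hBLV : ∀ (X : ℝ) (R U : ℕ) (b : ℕ → ℝ), 1 ≤ X → 2 ≤ R → (∀ r : ℕ, |b r| ≤ 1 / (r : ℝ)) →
      ∑ D ∈ Finset.Icc 1 ⌊X⌋₊, (∑ r ∈ (Finset.Ioc R U).filter (fun r => Odd r ∧ Squarefree r),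
        b r * xD r D) ^ 2 ≤ C₁ * (X / R + (U : ℝ) ^ (3 / 2 : ℝ)))
    {G : ℝ → ℝ} {B T S Y : ℝ} (hB : 0 ≤ B)
    (hG : ∀ u : ℝ, 0 < u → |G u| ≤ B * Real.exp (-u)) (hT : 1 ≤ T) {R U : ℕ} (hR : 2 ≤ R)
    (hY : 1 ≤ Y) (hC₁ : 0 < C₁) (hS : ∑ a ∈ smo R U, (1 : ℝ) / a ≤ S) :
    ∑ D ∈ Icc 1 ⌊Y⌋₊, (∑ a ∈ smo R U, ∑ s ∈ rou R U,
      ∑ r ∈ ((rou R U).filter Squarefree).erase 1, gT G T U D a s r) ^ 2 ≤
      (2 * S) ^ 2 * B ^ 2 * (C₁ * (Y / R + (U : ℝ) ^ (3 / 2 : ℝ))) := by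
  set P := smo R U ×ˢ rou R U with hP
  set v : ℕ × ℕ → ℝ := fun p => 1 / (p.1 : ℝ) * (1 / (p.2 : ℝ) ^ 2) with hv
  set V : ℕ → ℕ × ℕ → ℝ := fun D p =>
    ∑ r ∈ (Ioc R U).filter (fun r => Odd r ∧ Squarefree r), bT G B T R U p.1 p.2 r * xD r D with hV
  set K : ℝ := C₁ * (Y / R + (U : ℝ) ^ (3 / 2 : ℝ)) with hK
  have hK0 : 0 ≤ K := by positivity
  have hv0 : ∀ p ∈ P, 0 ≤ v p := fun p _ => by rw [hv]; positivity
  have hS0 : 0 ≤ S := (sum_nonneg fun a _ => by positivity).trans hS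
  have hvs : ∑ p ∈ P, v p ≤ 2 * S := by
    rw [hP, hv, sum_product]
    simp only
    rw [← sum_mul_sum]
    calc (∑ a ∈ smo R U, (1 : ℝ) / a) * ∑ s ∈ rou R U, 1 / (s : ℝ) ^ 2 ≤ S * 2 :=
          mul_le_mul hS (sum_sq_rou (by omega)) (sum_nonneg fun s _ => by positivity) hS0
      _ = 2 * S := by ring
  have hvs0 : 0 ≤ ∑ p ∈ P, v p := sum_nonneg hv0
  have h1 : ∀ D, (∑ a ∈ smo R U, ∑ s ∈ rou R U,
      ∑ r ∈ ((rou R U).filter Squarefree).erase 1, gT G T U D a s r) ^ 2 ≤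
      (∑ p ∈ P, v p) * ∑ p ∈ P, v p * (B * V D p) ^ 2 := by
    intro D
    have h2 : ∑ a ∈ smo R U, ∑ s ∈ rou R U,
        ∑ r ∈ ((rou R U).filter Squarefree).erase 1, gT G T U D a s r =
        ∑ p ∈ P, (chm p.1 D * chm (p.2 ^ 2) D / (p.1 * (p.2 : ℝ) ^ 2)) * (B * V D p) := by
      rw [hP, sum_product]
      refine sum_congr rfl fun a ha => sum_congr rfl fun s hs => ?_
      rw [inner_eq hCHM hB hG hT hR D (smo_pos ha).1 (rou_pos hs).1]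
      simp only [hV]
      ring
    rw [h2]
    refine cauchy_w P _ v _ hv0 fun p hp => ?_
    obtain ⟨hp1, hp2⟩ := mem_product.1 hp
    have ha := (smo_pos hp1).1
    have hs := (rou_pos hp2).1
    have ha0 : (0 : ℝ) < p.1 := by exact_mod_cast ha
    have hs0 : (0 : ℝ) < p.2 := by exact_mod_cast hs
    have hd : (0 : ℝ) < (p.1 : ℝ) * (p.2 : ℝ) ^ 2 := by positivity
    rw [abs_div, abs_mul, abs_of_pos hd]
    have h3 : |chm p.1 D| * |chm (p.2 ^ 2) D| ≤ 1 :=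
      mul_le_one₀ (hCHM.2.1 _ _) (abs_nonneg _) (hCHM.2.1 _ _)
    calc |chm p.1 D| * |chm (p.2 ^ 2) D| / (p.1 * (p.2 : ℝ) ^ 2) ≤ 1 / (p.1 * (p.2 : ℝ) ^ 2) :=
          div_le_div_of_nonneg_right h3 hd.le
      _ = v p := by rw [hv]; simp only; rw [one_div_mul_one_div]
  have h4 : ∀ p ∈ P, ∑ D ∈ Icc 1 ⌊Y⌋₊, (B * V D p) ^ 2 ≤ B ^ 2 * K := by
    intro p hp
    obtain ⟨hp1, hp2⟩ := mem_product.1 hp
    have h5 := hBLV Y R U (bT G B T R U p.1 p.2) hY hR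
      (bT_le hB hG hT R U (smo_pos hp1).1 (rou_pos hp2).1)
    calc ∑ D ∈ Icc 1 ⌊Y⌋₊, (B * V D p) ^ 2 = B ^ 2 * ∑ D ∈ Icc 1 ⌊Y⌋₊, (V D p) ^ 2 := by
          rw [mul_sum]
          exact sum_congr rfl fun D _ => mul_pow _ _ _
      _ ≤ B ^ 2 * K := mul_le_mul_of_nonneg_left h5 (sq_nonneg B)
  calc ∑ D ∈ Icc 1 ⌊Y⌋₊, (∑ a ∈ smo R U, ∑ s ∈ rou R U,
        ∑ r ∈ ((rou R U).filter Squarefree).erase 1, gT G T U D a s r) ^ 2
      ≤ ∑ D ∈ Icc 1 ⌊Y⌋₊, (∑ p ∈ P, v p) * ∑ p ∈ P, v p * (B * V D p) ^ 2 :=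
        sum_le_sum fun D _ => h1 D
    _ = (∑ p ∈ P, v p) * ∑ p ∈ P, v p * ∑ D ∈ Icc 1 ⌊Y⌋₊, (B * V D p) ^ 2 := by
        rw [← mul_sum, sum_comm]
        congr 1
        exact sum_congr rfl fun p _ => by rw [mul_sum]
    _ ≤ (∑ p ∈ P, v p) * ∑ p ∈ P, v p * (B ^ 2 * K) :=
        mul_le_mul_of_nonneg_left (sum_le_sum fun p hp =>
          mul_le_mul_of_nonneg_left (h4 p hp) (hv0 p hp)) hvs0
    _ = (∑ p ∈ P, v p) ^ 2 * (B ^ 2 * K) := by rw [← sum_mul]; ring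
    _ ≤ (2 * S) ^ 2 * (B ^ 2 * K) :=
        mul_le_mul_of_nonneg_right (pow_le_pow_left₀ hvs0 hvs 2) (by positivity)
    _ = (2 * S) ^ 2 * B ^ 2 * K := by ring

theorem pf_SVR (hCHM : T_CHM) (hDEC : T_DEC) (hSMN : T_SMN) (hBLV : T_BLV) : T_SVR := by
  obtain ⟨C₂, hC₂, hS⟩ := hSMN
  obtain ⟨C₁, hC₁, hb⟩ := hBLV
  refine ⟨3 * (10 + C₂ ^ 2 + 4 * C₂ ^ 2 * C₁), by positivity, ?_⟩
  intro R G B T Y hR hB hG hY hT hTY
  set U : ℕ := ⌊Y ^ (5 / 8 : ℝ)⌋₊ with hU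
  have hY0 : 0 < Y := by linarith
  have hU1 : 1 ≤ U := by
    rw [hU]
    exact Nat.le_floor (by
      rw [Nat.cast_one]
      exact Real.one_le_rpow hY (by norm_num))
  have hR0 : (0 : ℝ) < R := by
    have : 0 < R := by omega
    exact_mod_cast this
  have hlog2 : (0.69 : ℝ) < Real.log 2 := by
    have := Real.log_two_gt_d9
    linarith
  have hlog : Real.log 2 ≤ Real.log R := Real.log_le_log (by norm_num) (by exact_mod_cast hR)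
  have hlogsq : (4 : ℝ) ≤ 10 * Real.log R ^ 2 := by nlinarith
  have hS' := (hS R hR).1 U
  -- the tail
  have htail : ∀ D, |SG G D T - ∑ m ∈ Icc 1 U, fT G T D m| ≤ 2 * B * Y ^ (-(1 / 16) : ℝ) := by
    intro D
    have h1 := tail_le (fun m => chm m D) (fun m => hCHM.2.1 m D) G B T hB hG hT U
    have h2 : B * (T + 1) / (U + 1) ≤ 2 * B * Y ^ (-(1 / 16) : ℝ) := by
      have h3 : Y ^ (5 / 8 : ℝ) < (U : ℝ) + 1 := by
        rw [hU]
        exact Nat.lt_floor_add_one _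
      have h4 : (0 : ℝ) < (U : ℝ) + 1 := by positivity
      rw [div_le_iff₀ h4]
      have h5 : T + 1 ≤ 2 * Y ^ (9 / 16 : ℝ) := by linarith
      have h6 : Y ^ (-(1 / 16) : ℝ) * Y ^ (5 / 8 : ℝ) = Y ^ (9 / 16 : ℝ) := by
        rw [← Real.rpow_add hY0]
        norm_num
      have h7 : 0 < Y ^ (-(1 / 16) : ℝ) := Real.rpow_pos_of_pos hY0 _
      calc B * (T + 1) ≤ B * (2 * Y ^ (9 / 16 : ℝ)) := mul_le_mul_of_nonneg_left h5 hB
        _ = 2 * B * Y ^ (-(1 / 16) : ℝ) * Y ^ (5 / 8 : ℝ) := by rw [mul_assoc, h6]; ring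
        _ ≤ 2 * B * Y ^ (-(1 / 16) : ℝ) * (U + 1) :=
            mul_le_mul_of_nonneg_left h3.le (by positivity)
    exact h1.trans h2
  set E1 : ℕ → ℝ := fun D => ∑ a ∈ smo R U, ∑ s ∈ (rou R U).erase 1, gT G T U D a s 1 with hE1
  set E2 : ℕ → ℝ := fun D => ∑ a ∈ smo R U, ∑ s ∈ rou R U,
    ∑ r ∈ ((rou R U).filter Squarefree).erase 1, gT G T U D a s r with hE2
  have hpt : ∀ D, (SG G D T - ∑ a ∈ smo R U, chm a D / a * G ((a : ℝ) / T)) ^ 2 ≤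
      3 * ((2 * B * Y ^ (-(1 / 16) : ℝ)) ^ 2 + (B * (C₂ * Real.log R) / R) ^ 2 + E2 D ^ 2) := by
    intro D
    have h1 := split hDEC G T R U D hU1
    have h2 : SG G D T - ∑ a ∈ smo R U, chm a D / a * G ((a : ℝ) / T) =
        (SG G D T - ∑ m ∈ Icc 1 U, fT G T D m) + E1 D + E2 D := by
      have h3 : ∑ a ∈ smo R U, chm a D / a * G ((a : ℝ) / T) = ∑ a ∈ smo R U, fT G T D a := rfl
      rw [h3]
      simp only [hE1, hE2]
      linarith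
    rw [h2]
    set x := SG G D T - ∑ m ∈ Icc 1 U, fT G T D m with hx
    have hx2 : x ^ 2 ≤ (2 * B * Y ^ (-(1 / 16) : ℝ)) ^ 2 := by
      rw [← sq_abs x]
      exact pow_le_pow_left₀ (abs_nonneg _) (htail D) 2
    have hy2 : E1 D ^ 2 ≤ (B * (C₂ * Real.log R) / R) ^ 2 := by
      rw [← sq_abs (E1 D)]
      exact pow_le_pow_left₀ (abs_nonneg _) (e1_le hCHM hB hG hT (by omega) D hS') 2
    nlinarith [sq_nonneg (x - E1 D), sq_nonneg (x - E2 D), sq_nonneg (E1 D - E2 D)]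
  have hfl : ((Icc 1 ⌊Y⌋₊).card : ℝ) ≤ Y := by
    rw [Nat.card_Icc, Nat.add_sub_cancel]
    exact Nat.floor_le hY0.le
  have hE2s := e2_le hCHM hb hB hG hT hR hY hC₁ hS'
  have hU32 : (U : ℝ) ^ (3 / 2 : ℝ) ≤ Y ^ (15 / 16 : ℝ) := by
    have h1 : (U : ℝ) ≤ Y ^ (5 / 8 : ℝ) := Nat.floor_le (by positivity)
    calc (U : ℝ) ^ (3 / 2 : ℝ) ≤ (Y ^ (5 / 8 : ℝ)) ^ (3 / 2 : ℝ) :=
          Real.rpow_le_rpow (Nat.cast_nonneg _) h1 (by norm_num)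
      _ = Y ^ (15 / 16 : ℝ) := by
          rw [← Real.rpow_mul hY0.le]
          norm_num
  have hYp : Y * (Y ^ (-(1 / 16) : ℝ)) ^ 2 ≤ Y ^ (15 / 16 : ℝ) := by
    have h1 : Y * (Y ^ (-(1 / 16) : ℝ)) ^ 2 = Y ^ (7 / 8 : ℝ) := by
      rw [← Real.rpow_natCast (Y ^ (-(1 / 16) : ℝ)) 2, ← Real.rpow_mul hY0.le]
      nth_rewrite 1 [← Real.rpow_one Y]
      rw [← Real.rpow_add hY0]
      norm_num
    rw [h1]
    exact Real.rpow_le_rpow_of_exponent_le hY (by norm_num)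
  set Z : ℝ := Y ^ (15 / 16 : ℝ) with hZ
  have hZ0 : 0 ≤ Z := by positivity
  set L : ℝ := Real.log R with hL
  have hYR : 0 ≤ Y / R := by positivity
  have p1 : Y * (2 * B * Y ^ (-(1 / 16) : ℝ)) ^ 2 ≤ 10 * B ^ 2 * L ^ 2 * Z := by
    calc Y * (2 * B * Y ^ (-(1 / 16) : ℝ)) ^ 2 = 4 * B ^ 2 * (Y * (Y ^ (-(1 / 16) : ℝ)) ^ 2) := by
          ring
      _ ≤ 4 * B ^ 2 * Z := mul_le_mul_of_nonneg_left hYp (by positivity)
      _ ≤ (10 * L ^ 2) * B ^ 2 * Z := by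
          refine mul_le_mul_of_nonneg_right ?_ hZ0
          exact mul_le_mul_of_nonneg_right hlogsq (sq_nonneg B)
      _ = 10 * B ^ 2 * L ^ 2 * Z := by ring
  have p2 : Y * (B * (C₂ * L) / R) ^ 2 ≤ C₂ ^ 2 * B ^ 2 * L ^ 2 * (Y / R) := by
    have h1 : Y * (B * (C₂ * L) / R) ^ 2 = C₂ ^ 2 * B ^ 2 * L ^ 2 * (Y / R) * (1 / R) := by
      field_simp
    rw [h1]
    have h2 : 1 / (R : ℝ) ≤ 1 := by
      rw [div_le_one hR0]
      have : 1 ≤ R := by omega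
      exact_mod_cast this
    have h3 : 0 ≤ C₂ ^ 2 * B ^ 2 * L ^ 2 * (Y / R) := by positivity
    nlinarith
  have p3 : (2 * (C₂ * L)) ^ 2 * B ^ 2 * (C₁ * (Y / R + (U : ℝ) ^ (3 / 2 : ℝ))) ≤
      4 * C₂ ^ 2 * C₁ * B ^ 2 * L ^ 2 * (Y / R + Z) := by
    have h1 : (2 * (C₂ * L)) ^ 2 * B ^ 2 * (C₁ * (Y / R + (U : ℝ) ^ (3 / 2 : ℝ))) =
        4 * C₂ ^ 2 * C₁ * B ^ 2 * L ^ 2 * (Y / R + (U : ℝ) ^ (3 / 2 : ℝ)) := by ring
    rw [h1]
    exact mul_le_mul_of_nonneg_left (by linarith) (by positivity)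
  have hcard : ∀ x : ℝ, 0 ≤ x → ∑ _D ∈ Icc 1 ⌊Y⌋₊, x ≤ Y * x := by
    intro x hx
    rw [sum_const, nsmul_eq_mul]
    exact mul_le_mul_of_nonneg_right hfl hx
  calc ∑ D ∈ Icc 1 ⌊Y⌋₊, (SG G D T - ∑ a ∈ smo R U, chm a D / a * G ((a : ℝ) / T)) ^ 2
      ≤ ∑ D ∈ Icc 1 ⌊Y⌋₊,
        3 * ((2 * B * Y ^ (-(1 / 16) : ℝ)) ^ 2 + (B * (C₂ * L) / R) ^ 2 + E2 D ^ 2) :=
        sum_le_sum fun D _ => hpt D
    _ = 3 * (∑ _D ∈ Icc 1 ⌊Y⌋₊, (2 * B * Y ^ (-(1 / 16) : ℝ)) ^ 2 +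
        ∑ _D ∈ Icc 1 ⌊Y⌋₊, (B * (C₂ * L) / R) ^ 2 + ∑ D ∈ Icc 1 ⌊Y⌋₊, E2 D ^ 2) := by
        rw [← mul_sum, sum_add_distrib, sum_add_distrib]
    _ ≤ 3 * (Y * (2 * B * Y ^ (-(1 / 16) : ℝ)) ^ 2 + Y * (B * (C₂ * L) / R) ^ 2 +
        (2 * (C₂ * L)) ^ 2 * B ^ 2 * (C₁ * (Y / R + (U : ℝ) ^ (3 / 2 : ℝ)))) := by
        have h1 := hcard _ (sq_nonneg (2 * B * Y ^ (-(1 / 16) : ℝ)))
        have h2 := hcard _ (sq_nonneg (B * (C₂ * L) / R))
        have h3 : ∑ D ∈ Icc 1 ⌊Y⌋₊, E2 D ^ 2 ≤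
          (2 * (C₂ * L)) ^ 2 * B ^ 2 * (C₁ * (Y / R + (U : ℝ) ^ (3 / 2 : ℝ))) := hE2s
        linarith
    _ ≤ 3 * (10 * B ^ 2 * L ^ 2 * Z + C₂ ^ 2 * B ^ 2 * L ^ 2 * (Y / R) +
        4 * C₂ ^ 2 * C₁ * B ^ 2 * L ^ 2 * (Y / R + Z)) := by linarith
    _ ≤ 3 * (10 * B ^ 2 * L ^ 2 * (Y / R + Z) + C₂ ^ 2 * B ^ 2 * L ^ 2 * (Y / R + Z) +
        4 * C₂ ^ 2 * C₁ * B ^ 2 * L ^ 2 * (Y / R + Z)) := by
        have h1 : 10 * B ^ 2 * L ^ 2 * Z ≤ 10 * B ^ 2 * L ^ 2 * (Y / R + Z) :=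
          mul_le_mul_of_nonneg_left (by linarith) (by positivity)
        have h2 : C₂ ^ 2 * B ^ 2 * L ^ 2 * (Y / R) ≤ C₂ ^ 2 * B ^ 2 * L ^ 2 * (Y / R + Z) :=
          mul_le_mul_of_nonneg_left (by linarith) (by positivity)
        linarith
    _ = 3 * (10 + C₂ ^ 2 + 4 * C₂ ^ 2 * C₁) * B ^ 2 * L ^ 2 * (Y / R + Z) := by ring

end Pool.Agent.H70.CFH
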